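import Pool.Agent.Helper76.RT.D3
import Pool.Agent.Helper22.RT.D3a

/-!
# Project RT, blocks D3b, D3c
-/

open MeasureTheory Real Set Filter Topology

set_option autoImplicit false

namespace Pool.Agent.Helper60.RT

open Pool.Agent.Helper22.AE
open Pool.Agent.Helper92.GC (dt tp Tq uu tt arc dd sqa m6)
open Pool.Agent.Helper92.DT (m12 IsMul12)
open Pool.Agent.Helper60.LT (Fr Tf xf yf df vf fr ac co Cut BB PP)
open Pool.Agent.Helper60.QL (R3 nm pA xA sA TA Cone)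

/-- D3b: change of variables, upper bound -/
theorem R_up {e : Fr} (he : 0 < df e) {B : ℝ} (hB : 1 ≤ B) : ∃ C : ℝ, 1 ≤ C ∧ ∀ (X σ t : ℝ) (S : Finset (ℤ × ℤ)), 0 < X → |t| ≤ 3 → 0 < σ →
    σ ≤ |l1 e t * l2 e t| → (∀ k ∈ S, 0 < k.1) → RI e B X S ≤ ENNReal.ofReal (C / (X * σ)) * ∫⁻ A in OR e t B X, ENNReal.ofReal (qr e t S A) := by
  obtain ⟨C, hC, h⟩ := R_up_of he hB
  refine ⟨C, hC, fun X σ t S hX ht hσ hP hS => h X σ t S hX ht hσ hP fun r s hr hs => ?_⟩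
  exact mr_qr he hr hs (abs_pos.1 (hσ.trans_le hP)) hS

/-- D3c: change of variables, lower bound -/
theorem R_lo {e : Fr} (he : 0 < df e) {B Λ : ℝ} (hB : 1 ≤ B) (hΛ : 1 ≤ Λ) : ∃ C : ℝ, 1 ≤ C ∧ ∀ (X σ t : ℝ) (S : Finset (ℤ × ℤ)), 0 < X → |t| ≤ 3 → 0 < σ →
    σ ≤ |l1 e t * l2 e t| → |l1 e t * l2 e t| ≤ Λ * σ → (∀ k ∈ S, 0 < k.1) →
      ∫⁻ A in OR e t B X, ENNReal.ofReal (qr e t S A) ≤ ENNReal.ofReal (C * X * σ) * RI e B X S := by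
  obtain ⟨C, hC, h⟩ := R_lo_of he hB (zero_le_one.trans hΛ)
  refine ⟨C, hC, fun X σ t S hX ht hσ hP hP' hS => h X σ t S hX ht hσ hP hP' fun r s hr hs => ?_⟩
  exact mr_qr he hr hs (abs_pos.1 (hσ.trans_le hP)) hS

end Pool.Agent.Helper60.RT
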