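import Pool.Agent.Helper60.RT.Defs2
import Pool.Agent.Helper92.LA.A3

/-!
# Project RT, blocks D3b, D3c: the change of variables

`|det D Ar| = r c2² |dx/ds|`, `dx/ds = 2 s l1 l2 det / T⁴`.
-/

open MeasureTheory Real Set Filter Topology

set_option autoImplicit false

namespace Pool.Agent.Helper60.RT

open Pool.Agent.Helper22.AE
open Pool.Agent.Helper92.GC (dt tp Tq uu tt arc dd sqa m6)
open Pool.Agent.Helper92.DT (m12 IsMul12)
open Pool.Agent.Helper60.LT (Fr Tf xf yf df vf fr ac co Cut BB PP)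
open Pool.Agent.Helper60.QL (R3 nm pA xA sA TA Cone)

private theorem ee_cont76 : Continuous ee := by
  unfold ee
  fun_prop

/-- the moment of the stretched frame is continuous -/
theorem mr_cont (e : Fr) (S : Finset (ℤ × ℤ)) : Continuous (fun q : ℝ × ℝ => mr S q.1 (st q.2 e)) := by
  unfold mr
  refine Pool.Agent.Helper92.LA.m12_cont_coef S (fun (q : ℝ × ℝ) k => ee (q.1 * nm (vf (st q.2 e) k))) fun k _ => ?_
  refine ee_cont76.comp ?_
  unfold nm vf st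
  fun_prop

/-- the integral over the stretches and the radii is an integral over a rectangle -/
theorem RI_rect (e : Fr) (B X : ℝ) (S : Finset (ℤ × ℤ)) :
    RI e B X S = ∫⁻ q in Icc (X / B) (B * X) ×ˢ Icc B⁻¹ B, ENNReal.ofReal (mr S q.1 (st q.2 e)) := by
  have h1 : Measurable (fun q : ℝ × ℝ => ENNReal.ofReal (mr S q.1 (st q.2 e))) :=
    ENNReal.measurable_ofReal.comp (mr_cont e S).measurable
  rw [RI, Measure.volume_eq_prod, ← Measure.prod_restrict, lintegral_prod_symm _ h1.aemeasurable]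

/-- the vector `e₁ + t e₂` is bounded below -/
private theorem T2_bd76 {e : Fr} (he : 0 < df e) {B : ℝ} (hB : 1 ≤ B) : ∃ a b : ℝ, 0 < a ∧ 0 < b ∧ ∀ t s : ℝ, |t| ≤ 3 → s ∈ Icc B⁻¹ B →
    a ≤ T2 e t s ∧ T2 e t s ≤ b := by
  have hE : 0 < e.2.1 ^ 2 + e.2.2 ^ 2 := by
    rcases eq_or_ne e.2.1 0 with h | h
    · rcases eq_or_ne e.2.2 0 with h' | h'
      · exfalso
        rw [df, h, h'] at he
        simp at he
      · positivity
    · positivity
  refine ⟨B⁻¹ ^ 2 * (df e ^ 2 / (e.2.1 ^ 2 + e.2.2 ^ 2)), B ^ 2 * ((|e.1.1| + 3 * |e.2.1|) ^ 2 + (|e.1.2| + 3 * |e.2.2|) ^ 2) + 1,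
    by positivity, by positivity, fun t s ht hs => ?_⟩
  have hB0 : 0 < B := by linarith
  have hs0 : 0 < s := lt_of_lt_of_le (by positivity) hs.1
  have h1 : df e ^ 2 ≤ (l1 e t ^ 2 + l2 e t ^ 2) * (e.2.1 ^ 2 + e.2.2 ^ 2) := by
    have h2 : df e = l1 e t * e.2.2 - l2 e t * e.2.1 := by
      unfold df l1 l2
      ring
    rw [h2]
    nlinarith [sq_nonneg (l1 e t * e.2.1 + l2 e t * e.2.2)]
  have h3 : df e ^ 2 / (e.2.1 ^ 2 + e.2.2 ^ 2) ≤ l1 e t ^ 2 + l2 e t ^ 2 := (div_le_iff₀ hE).2 h1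
  have hBi : B⁻¹ ≤ 1 := inv_le_one_of_one_le₀ hB
  have hBi0 : 0 < B⁻¹ := by positivity
  have h4 : B⁻¹ ^ 2 ≤ s ^ 2 := pow_le_pow_left₀ hBi0.le hs.1 2
  have h5 : B⁻¹ ^ 2 ≤ 1 := pow_le_one₀ hBi0.le hBi
  have h6 : s ^ 2 ≤ B ^ 2 := pow_le_pow_left₀ hs0.le hs.2 2
  have h7 : 1 ≤ B ^ 2 := one_le_pow₀ hB
  constructor
  · calc B⁻¹ ^ 2 * (df e ^ 2 / (e.2.1 ^ 2 + e.2.2 ^ 2)) ≤ B⁻¹ ^ 2 * (l1 e t ^ 2 + l2 e t ^ 2) := mul_le_mul_of_nonneg_left h3 (by positivity)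
      _ ≤ T2 e t s := by
          unfold T2
          nlinarith [sq_nonneg (l1 e t), sq_nonneg (l2 e t)]
  · have h8 : l1 e t ^ 2 ≤ (|e.1.1| + 3 * |e.2.1|) ^ 2 := by
      rw [← sq_abs (l1 e t)]
      refine pow_le_pow_left₀ (abs_nonneg _) ?_ 2
      unfold l1
      refine (abs_add_le _ _).trans ?_
      rw [abs_mul]
      gcongr
    have h9 : l2 e t ^ 2 ≤ (|e.1.2| + 3 * |e.2.2|) ^ 2 := by
      rw [← sq_abs (l2 e t)]
      refine pow_le_pow_left₀ (abs_nonneg _) ?_ 2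
      unfold l2
      refine (abs_add_le _ _).trans ?_
      rw [abs_mul]
      gcongr
    unfold T2
    nlinarith [sq_nonneg (l1 e t), sq_nonneg (l2 e t), mul_le_mul_of_nonneg_right h6 (sq_nonneg (l2 e t))]

/-- the derivative of the shear -/
noncomputable def xd (e : Fr) (t s : ℝ) : ℝ := 2 * s * (l1 e t * l2 e t) * df e / T2 e t s ^ 2

theorem xs_deriv {e : Fr} {t s : ℝ} (hT : T2 e t s ≠ 0) : HasDerivAt (xs e t) (xd e t s) s := by
  have h0 : HasDerivAt (fun s : ℝ => s ^ 2) (2 * s) s := by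
    simpa using hasDerivAt_pow 2 s
  have h1 : HasDerivAt (fun s => l1 e t * e.2.1 + s ^ 2 * (l2 e t * e.2.2)) (2 * s * (l2 e t * e.2.2)) s :=
    (h0.mul_const _).const_add _
  have h2 : HasDerivAt (fun s => T2 e t s) (2 * s * l2 e t ^ 2) s := by
    unfold T2
    exact (h0.mul_const _).const_add _
  have h3 := h1.div h2 hT
  refine (h3.congr_deriv ?_)
  unfold xd
  congr 1
  unfold T2 df l1 l2
  ring

theorem c2_diff {e : Fr} {t s : ℝ} (hT : 0 < T2 e t s) : DifferentiableAt ℝ (c2 e t) s := by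
  have h1 : DifferentiableAt ℝ (fun s => T2 e t s) s := by
    unfold T2
    fun_prop
  unfold c2
  refine DifferentiableAt.div (by fun_prop) ?_ ?_
  · exact (h1.mul (h1.sqrt hT.ne')).const_mul 2
  · have := Real.sqrt_pos.2 hT
    positivity

/-- the derivative of the coordinates -/
noncomputable def Ad (e : Fr) (t : ℝ) (q : R2) : R2 →L[ℝ] R2 :=
  (Matrix.toLin (Module.Basis.finTwoProd ℝ) (Module.Basis.finTwoProd ℝ)
    !![c2 e t q.2, q.1 * deriv (c2 e t) q.2;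
      -(xs e t q.2 * c2 e t q.2), -(xd e t q.2 * (q.1 * c2 e t q.2) + xs e t q.2 * (q.1 * deriv (c2 e t) q.2))]).toContinuousLinearMap

set_option linter.unnecessarySeqFocus false in
theorem Ar_deriv {e : Fr} {t : ℝ} {q : R2} (hT : 0 < T2 e t q.2) : HasFDerivAt (Ar e t) (Ad e t q) q := by
  have hc : HasFDerivAt (fun q : R2 => c2 e t q.2) (deriv (c2 e t) q.2 • ContinuousLinearMap.snd ℝ ℝ ℝ) q :=
    (c2_diff hT).hasDerivAt.comp_hasFDerivAt q hasFDerivAt_snd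
  have hx : HasFDerivAt (fun q : R2 => xs e t q.2) (xd e t q.2 • ContinuousLinearMap.snd ℝ ℝ ℝ) q :=
    (xs_deriv hT.ne').comp_hasFDerivAt q hasFDerivAt_snd
  have h1 := (hasFDerivAt_fst (𝕜 := ℝ) (p := q)).mul hc
  have h2 := (hx.mul h1).neg
  have h3 := h1.prodMk h2
  unfold Ad
  rw [Matrix.toLin_finTwoProd_toContinuousLinearMap]
  refine HasFDerivAt.congr_fderiv h3 ?_
  ext <;> simp <;> ring

theorem Ad_det (e : Fr) (t : ℝ) (q : R2) : (Ad e t q).det = -(q.1 * c2 e t q.2 ^ 2 * xd e t q.2) := by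
  unfold Ad
  simp only [LinearMap.det_toContinuousLinearMap, LinearMap.det_toLin, Matrix.det_fin_two_of]
  ring

/-- the squared length is positive -/
theorem T2_pos {e : Fr} {t s : ℝ} (hs : 0 < s) (ht : l1 e t * l2 e t ≠ 0) : 0 < T2 e t s := by
  have h1 : l1 e t ≠ 0 := left_ne_zero_of_mul ht
  unfold T2
  positivity

/-- the coordinates are injective -/
theorem Ar_inj {e : Fr} (he : 0 < df e) {B X t : ℝ} (hB : 1 ≤ B) (hX : 0 < X) (ht : l1 e t * l2 e t ≠ 0) :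
    InjOn (Ar e t) (Icc (X / B) (B * X) ×ˢ Icc B⁻¹ B) := by
  have hB0 : 0 < B := by linarith
  rintro ⟨r, s⟩ ⟨hr, hs⟩ ⟨r', s'⟩ ⟨hr', hs'⟩ h
  simp only [mem_Icc] at hr hs hr' hs'
  have hr0 : 0 < r := lt_of_lt_of_le (by positivity) hr.1
  have hr0' : 0 < r' := lt_of_lt_of_le (by positivity) hr'.1
  have hs0 : 0 < s := lt_of_lt_of_le (by positivity) hs.1
  have hs0' : 0 < s' := lt_of_lt_of_le (by positivity) hs'.1
  have hT := T2_pos hs0 ht
  have hT' := T2_pos hs0' ht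
  have hc : 0 < c2 e t s := by
    have := Real.sqrt_pos.2 hT
    unfold c2
    positivity
  have hc' : 0 < c2 e t s' := by
    have := Real.sqrt_pos.2 hT'
    unfold c2
    positivity
  have h1 : r * c2 e t s = r' * c2 e t s' := congrArg Prod.fst h
  have h2 : -(xs e t s * (r * c2 e t s)) = -(xs e t s' * (r' * c2 e t s')) := congrArg Prod.snd h
  rw [h1, neg_inj] at h2
  have h3 : xs e t s = xs e t s' := mul_right_cancel₀ (by positivity) h2
  unfold xs at h3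
  rw [div_eq_div_iff hT.ne' hT'.ne'] at h3
  have h4 : (s ^ 2 - s' ^ 2) * (l1 e t * l2 e t * df e) = 0 := by
    have h5 : df e = l1 e t * e.2.2 - l2 e t * e.2.1 := by
      unfold df l1 l2
      ring
    rw [h5]
    unfold T2 at h3
    linear_combination h3
  have h6 : s ^ 2 - s' ^ 2 = 0 := by
    rcases mul_eq_zero.1 h4 with h | h
    · exact h
    · exact absurd h (mul_ne_zero ht he.ne')
  have h7 : s = s' := by
    have h8 : (s - s') * (s + s') = 0 := by linear_combination h6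
    rcases mul_eq_zero.1 h8 with h | h
    · linarith
    · linarith
  subst h7
  have h9 : r = r' := mul_right_cancel₀ hc.ne' h1
  rw [h9]

/-- the determinant in closed form -/
theorem det_eq {e : Fr} {t r s : ℝ} (hr : 0 ≤ r) (hs : 0 ≤ s) (he : 0 ≤ df e) (hT : 0 < T2 e t s) :
    |(Ad e t (r, s)).det| = r * s ^ 5 * df e ^ 5 / 2 * (|l1 e t * l2 e t| / T2 e t s ^ 5) := by
  rw [Ad_det]
  have h1 : c2 e t s ^ 2 = s ^ 4 * df e ^ 4 / (4 * T2 e t s ^ 3) := by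
    unfold c2
    rw [div_pow, mul_pow, mul_pow, mul_pow, Real.sq_sqrt hT.le]
    congr 1 <;> ring
  have h2 : -((r, s).1 * c2 e t (r, s).2 ^ 2 * xd e t (r, s).2) = -(r * s ^ 5 * df e ^ 5 / 2 * (1 / T2 e t s ^ 5) * (l1 e t * l2 e t)) := by
    simp only
    rw [h1]
    unfold xd
    field_simp
    ring
  rw [h2, abs_neg, abs_mul, abs_of_nonneg (by positivity)]
  ring

/-- the size of the determinant -/
theorem det_bd {e : Fr} (he : 0 < df e) {B : ℝ} (hB : 1 ≤ B) : ∃ δ Δ : ℝ, 0 < δ ∧ 0 < Δ ∧ ∀ (X t : ℝ) (q : R2), 0 < X → |t| ≤ 3 → l1 e t * l2 e t ≠ 0 →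
    q ∈ Icc (X / B) (B * X) ×ˢ Icc B⁻¹ B → δ * X * |l1 e t * l2 e t| ≤ |(Ad e t q).det| ∧ |(Ad e t q).det| ≤ Δ * X * |l1 e t * l2 e t| := by
  obtain ⟨a, b, ha, hb, hab⟩ := T2_bd76 he hB
  have hB0 : 0 < B := by linarith
  refine ⟨B⁻¹ * B⁻¹ ^ 5 * df e ^ 5 / 2 * (1 / b ^ 5), B * B ^ 5 * df e ^ 5 / 2 * (1 / a ^ 5), by positivity, by positivity, ?_⟩
  rintro X t ⟨r, s⟩ hX ht hP ⟨hr, hs⟩
  simp only at hr hs
  have hs0 : 0 < s := lt_of_lt_of_le (by positivity) hs.1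
  have hr0 : 0 < r := lt_of_lt_of_le (by positivity) hr.1
  have hT := T2_pos hs0 hP
  obtain ⟨h1, h2⟩ := hab t s ht hs
  rw [det_eq hr0.le hs0.le he.le hT]
  have h3 : X / B = B⁻¹ * X := by ring
  have h4 : 0 ≤ |l1 e t * l2 e t| := abs_nonneg _
  constructor
  · calc B⁻¹ * B⁻¹ ^ 5 * df e ^ 5 / 2 * (1 / b ^ 5) * X * |l1 e t * l2 e t| = X / B * B⁻¹ ^ 5 * df e ^ 5 / 2 * (|l1 e t * l2 e t| / b ^ 5) := by
          rw [h3]; ring
      _ ≤ r * s ^ 5 * df e ^ 5 / 2 * (|l1 e t * l2 e t| / T2 e t s ^ 5) := by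
          have h5 := hr.1
          have h6 := hs.1
          gcongr
  · calc r * s ^ 5 * df e ^ 5 / 2 * (|l1 e t * l2 e t| / T2 e t s ^ 5) ≤ B * X * B ^ 5 * df e ^ 5 / 2 * (|l1 e t * l2 e t| / a ^ 5) := by
          have h5 := hr.2
          have h6 := hs.2
          gcongr
      _ = B * B ^ 5 * df e ^ 5 / 2 * (1 / a ^ 5) * X * |l1 e t * l2 e t| := by ring

/-- the change of variables -/
theorem OR_int {e : Fr} (he : 0 < df e) {B X t : ℝ} (hB : 1 ≤ B) (hX : 0 < X) (ht : l1 e t * l2 e t ≠ 0) (g : R2 → ENNReal) :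
    ∫⁻ A in OR e t B X, g A = ∫⁻ q in Icc (X / B) (B * X) ×ˢ Icc B⁻¹ B, ENNReal.ofReal |(Ad e t q).det| * g (Ar e t q) := by
  have hB0 : 0 < B := by linarith
  unfold OR
  refine lintegral_image_eq_lintegral_abs_det_fderiv_mul volume (measurableSet_Icc.prod measurableSet_Icc) (fun q hq => ?_) (Ar_inj he hB hX ht) g
  have h1 : 0 < q.2 := lt_of_lt_of_le (by positivity) hq.2.1
  exact (Ar_deriv (T2_pos h1 ht)).hasFDerivWithinAt

/-- the upper bound, given the phase identity -/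
theorem R_up_of {e : Fr} (he : 0 < df e) {B : ℝ} (hB : 1 ≤ B) : ∃ C : ℝ, 1 ≤ C ∧ ∀ (X σ t : ℝ) (S : Finset (ℤ × ℤ)), 0 < X → |t| ≤ 3 → 0 < σ →
    σ ≤ |l1 e t * l2 e t| → (∀ r s : ℝ, 0 < r → 0 < s → mr S r (st s e) = qr e t S (Ar e t (r, s))) →
      RI e B X S ≤ ENNReal.ofReal (C / (X * σ)) * ∫⁻ A in OR e t B X, ENNReal.ofReal (qr e t S A) := by
  obtain ⟨δ, Δ, hδ, hΔ, hd⟩ := det_bd he hB
  have hB0 : 0 < B := by linarith
  refine ⟨max 1 (1 / δ), le_max_left _ _, fun X σ t S hX ht hσ hP hq => ?_⟩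
  have hP0 : l1 e t * l2 e t ≠ 0 := by
    rw [← abs_pos]
    linarith
  rw [RI_rect, OR_int he hB hX hP0, ← lintegral_const_mul' _ _ ENNReal.ofReal_ne_top]
  refine setLIntegral_mono' (measurableSet_Icc.prod measurableSet_Icc) fun q hqm => ?_
  have h1 : 0 < q.2 := lt_of_lt_of_le (by positivity) hqm.2.1
  have h2 : 0 < q.1 := lt_of_lt_of_le (by positivity) hqm.1.1
  have h3 : mr S q.1 (st q.2 e) = qr e t S (Ar e t q) := hq q.1 q.2 h2 h1
  rw [h3, ← mul_assoc, ← ENNReal.ofReal_mul (by positivity)]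
  refine le_mul_of_one_le_left (by positivity) ?_
  rw [ENNReal.one_le_ofReal]
  have h4 := (hd X t q hX ht hP0 hqm).1
  calc (1 : ℝ) = 1 / δ / (X * σ) * (δ * X * σ) := by field_simp
    _ ≤ max 1 (1 / δ) / (X * σ) * |(Ad e t q).det| := by
        gcongr
        · exact le_max_right _ _
        · refine le_trans ?_ h4
          gcongr

/-- the lower bound, given the phase identity -/
theorem R_lo_of {e : Fr} (he : 0 < df e) {B Λ : ℝ} (hB : 1 ≤ B) (hΛ : 0 ≤ Λ) : ∃ C : ℝ, 1 ≤ C ∧ ∀ (X σ t : ℝ) (S : Finset (ℤ × ℤ)), 0 < X → |t| ≤ 3 → 0 < σ →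
    σ ≤ |l1 e t * l2 e t| → |l1 e t * l2 e t| ≤ Λ * σ → (∀ r s : ℝ, 0 < r → 0 < s → mr S r (st s e) = qr e t S (Ar e t (r, s))) →
      ∫⁻ A in OR e t B X, ENNReal.ofReal (qr e t S A) ≤ ENNReal.ofReal (C * X * σ) * RI e B X S := by
  obtain ⟨δ, Δ, hδ, hΔ, hd⟩ := det_bd he hB
  have hB0 : 0 < B := by linarith
  have hΔΛ : 0 ≤ Δ * Λ := mul_nonneg hΔ.le hΛ
  refine ⟨1 + Δ * Λ, by linarith, fun X σ t S hX ht hσ hP hP' hq => ?_⟩
  have hP0 : l1 e t * l2 e t ≠ 0 := by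
    rw [← abs_pos]
    linarith
  rw [RI_rect, OR_int he hB hX hP0, ← lintegral_const_mul' _ _ ENNReal.ofReal_ne_top]
  refine setLIntegral_mono' (measurableSet_Icc.prod measurableSet_Icc) fun q hqm => ?_
  have h1 : 0 < q.2 := lt_of_lt_of_le (by positivity) hqm.2.1
  have h2 : 0 < q.1 := lt_of_lt_of_le (by positivity) hqm.1.1
  have h3 : mr S q.1 (st q.2 e) = qr e t S (Ar e t q) := hq q.1 q.2 h2 h1
  rw [h3]
  refine mul_le_mul_left ?_ _
  refine ENNReal.ofReal_le_ofReal ((hd X t q hX ht hP0 hqm).2.trans ?_)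
  calc Δ * X * |l1 e t * l2 e t| ≤ Δ * X * (Λ * σ) := by gcongr
    _ = Δ * Λ * X * σ := by ring
    _ ≤ (1 + Δ * Λ) * X * σ := by
        gcongr
        linarith

end Pool.Agent.Helper60.RT
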